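import Pool.Agent.Lib_helper40.MC.X8d.Dat

/-!
# exceptional curve d: the trivial relations
-/

set_option autoImplicit false
set_option maxRecDepth 100000

namespace Pool.Agent.MCX8d

open Pool.Agent.KC72 Pool.Agent.MC

theorem x8d_t0 : blk (cT x8d x8d_t) x8d.T 40 0 = true := by decide +kernel

theorem x8d_t1 : blk (cT x8d x8d_t) x8d.T 40 1 = true := by decide +kernel

theorem x8d_t2 : blk (cT x8d x8d_t) x8d.T 40 2 = true := by decide +kernel

theorem x8d_t' : ∀ k < 3, blk (cT x8d x8d_t) x8d.T 40 k = true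
  | 0, _ => x8d_t0
  | 1, _ => x8d_t1
  | 2, _ => x8d_t2
  | k + 3, h => absurd h (by omega)

end Pool.Agent.MCX8d
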