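import Pool.Agent.Lib_helper40.MC.X8d.Q
import Pool.Agent.Lib_helper40.MC.X8d.T

/-!
# exceptional curve d: all checks
-/

set_option autoImplicit false
set_option maxRecDepth 100000

namespace Pool.Agent.MCX8d

open Pool.Agent.KC72 Pool.Agent.MC

theorem x8d_0 : NumX x8d x8d_t x8d_ll.length := by decide +kernel

theorem x8d_om : xm x8d.kb x8d.ko (x8d.m * x8d.N) x8d.Om = true := by decide +kernel

theorem x8d_b : cB x8d = true := by decide +kernel

theorem x8d_r0 : blk (cR x8d) x8d.rels 60 0 = true := by decide +kernel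

theorem x8d_r' : ∀ k < 1, blk (cR x8d) x8d.rels 60 k = true
  | 0, _ => x8d_r0
  | k + 1, h => absurd h (by omega)

theorem x8d_g : allI (fun c g => cG x8d.DG x8d_t.B x8d_t.MA x8d_t.P2 x8d_t.MB c g) x8d.G 0 = true := by decide +kernel

theorem x8d_g' : x8d.toCert.chk3' = true := by decide +kernel

theorem x8d_k1 : (x8d.cls.take x8d.m).map (prF x8d_t.p x8d.n x8d.r) = x8d_t.PR := by decide +kernel

theorem x8d_k2 : (x8d.cls.take x8d.m).map (pkw (Int.ofNat x8d_t.Z) (Int.ofNat (Nat.pow x8d_t.Z x8d.n)) x8d.r) = x8d_t.PM := by decide +kernel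

theorem x8d_k3 : x8d_t.P2.map (fun x => pmb (Int.ofNat x8d_t.B) x.1 x.2 (x8d.cls.take x8d.m)) = x8d_t.MB := by decide +kernel

theorem x8d_e : x8d.cls.all (fun e => bdE x8d_t.MA x8d.n e.1.2 && bdE x8d_t.MA x8d.n e.2.2) = true := by decide +kernel

theorem x8d_xq : x8d_t.XQ.all (fun X => X.all (xm x8d_t.a x8d_t.d x8d_t.S)) = true := by decide +kernel

theorem x8d_xt : x8d_t.XT.all (fun X => X.all (xm x8d_t.a' x8d_t.d' x8d_t.K)) = true := by decide +kernel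

theorem x8d_d0_0 : blk (cD x8d x8d_v0) x8d.Q 40 0 = true := by decide +kernel

theorem x8d_d0_1 : blk (cD x8d x8d_v0) x8d.Q 40 1 = true := by decide +kernel

theorem x8d_d0_' : ∀ k < 2, blk (cD x8d x8d_v0) x8d.Q 40 k = true
  | 0, _ => x8d_d0_0
  | 1, _ => x8d_d0_1
  | k + 2, h => absurd h (by omega)

theorem x8d_d1_0 : blk (cD x8d x8d_v1) x8d.Q 40 0 = true := by decide +kernel

theorem x8d_d1_1 : blk (cD x8d x8d_v1) x8d.Q 40 1 = true := by decide +kernel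

theorem x8d_d1_' : ∀ k < 2, blk (cD x8d x8d_v1) x8d.Q 40 k = true
  | 0, _ => x8d_d1_0
  | 1, _ => x8d_d1_1
  | k + 2, h => absurd h (by omega)

theorem x8d_d2_0 : blk (cD x8d x8d_v2) x8d.Q 40 0 = true := by decide +kernel

theorem x8d_d2_1 : blk (cD x8d x8d_v2) x8d.Q 40 1 = true := by decide +kernel

theorem x8d_d2_' : ∀ k < 2, blk (cD x8d x8d_v2) x8d.Q 40 k = true
  | 0, _ => x8d_d2_0
  | 1, _ => x8d_d2_1
  | k + 2, h => absurd h (by omega)

theorem x8d_d3_0 : blk (cD x8d x8d_v3) x8d.Q 40 0 = true := by decide +kernel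

theorem x8d_d3_1 : blk (cD x8d x8d_v3) x8d.Q 40 1 = true := by decide +kernel

theorem x8d_d3_' : ∀ k < 2, blk (cD x8d x8d_v3) x8d.Q 40 k = true
  | 0, _ => x8d_d3_0
  | 1, _ => x8d_d3_1
  | k + 2, h => absurd h (by omega)

theorem x8d_d4_0 : blk (cD x8d x8d_v4) x8d.Q 40 0 = true := by decide +kernel

theorem x8d_d4_1 : blk (cD x8d x8d_v4) x8d.Q 40 1 = true := by decide +kernel

theorem x8d_d4_' : ∀ k < 2, blk (cD x8d x8d_v4) x8d.Q 40 k = true
  | 0, _ => x8d_d4_0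
  | 1, _ => x8d_d4_1
  | k + 2, h => absurd h (by omega)

theorem x8d_d5_0 : blk (cD x8d x8d_v5) x8d.Q 40 0 = true := by decide +kernel

theorem x8d_d5_1 : blk (cD x8d x8d_v5) x8d.Q 40 1 = true := by decide +kernel

theorem x8d_d5_' : ∀ k < 2, blk (cD x8d x8d_v5) x8d.Q 40 k = true
  | 0, _ => x8d_d5_0
  | 1, _ => x8d_d5_1
  | k + 2, h => absurd h (by omega)

theorem x8d_d6_0 : blk (cD x8d x8d_v6) x8d.Q 40 0 = true := by decide +kernel

theorem x8d_d6_1 : blk (cD x8d x8d_v6) x8d.Q 40 1 = true := by decide +kernel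

theorem x8d_d6_' : ∀ k < 2, blk (cD x8d x8d_v6) x8d.Q 40 k = true
  | 0, _ => x8d_d6_0
  | 1, _ => x8d_d6_1
  | k + 2, h => absurd h (by omega)

theorem x8d_d7_0 : blk (cD x8d x8d_v7) x8d.Q 40 0 = true := by decide +kernel

theorem x8d_d7_1 : blk (cD x8d x8d_v7) x8d.Q 40 1 = true := by decide +kernel

theorem x8d_d7_' : ∀ k < 2, blk (cD x8d x8d_v7) x8d.Q 40 k = true
  | 0, _ => x8d_d7_0
  | 1, _ => x8d_d7_1
  | k + 2, h => absurd h (by omega)

theorem x8d_x : allI (fun s L => cL x8d x8d_t (x8d_vl.getD s []) s L) x8d_ll 0 = true := by decide +kernel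

/-- all checks -/
theorem x8d_ok : ROkX x8d x8d_ll :=
  rOkX_of (A := x8d_t) (VL := x8d_vl) (l4 := 60) (n4 := 1) (lQ := 40) (nQ := 2) (lT := 40) (nT := 3) rfl x8d_0 x8d_om x8d_b
    (by decide) (by decide +kernel) x8d_r' x8d_g x8d_g' ⟨x8d_k1, x8d_k2, x8d_k3⟩ x8d_e x8d_xq x8d_xt (by decide) (by decide +kernel) x8d_q'
    (by decide) (by decide +kernel) x8d_t' x8d_x
    (List.forall_mem_cons.2 ⟨x8d_d0_', (List.forall_mem_cons.2 ⟨x8d_d1_', (List.forall_mem_cons.2 ⟨x8d_d2_', (List.forall_mem_cons.2 ⟨x8d_d3_', (List.forall_mem_cons.2 ⟨x8d_d4_', (List.forall_mem_cons.2 ⟨x8d_d5_', (List.forall_mem_cons.2 ⟨x8d_d6_', (List.forall_mem_cons.2 ⟨x8d_d7_', (List.forall_mem_nil _)⟩)⟩)⟩)⟩)⟩)⟩)⟩)⟩)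

end Pool.Agent.MCX8d
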