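import Pool.Agent.Lib_helper40.MC.P2
import Pool.Agent.Lib_helper40.MC.X8d.Ok
import Pool.Agent.Lib_helper60.K8d.Cl

/-!
# The classes of the certificate `x8d` are the kept classes of the table
-/

set_option autoImplicit false
set_option maxRecDepth 100000

namespace Pool.Agent.MCX8d

open Pool.Agent.MC Pool.Agent.KC72

/-- the positions of the kept classes in the table -/
def keptPos : List ℕ := [0, 1, 2, 3, 4, 5, 6, 7, 8, 9, 10, 11, 12, 13, 14, 15, 16, 17, 18, 19, 20, 21, 22, 23, 24, 25,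
  26, 27, 28, 29, 30, 31, 32, 33, 34, 35, 36, 37, 38, 39, 40, 41, 42, 43, 44, 45, 46, 47, 48, 49,
  50, 51, 52, 53, 54, 55, 56, 62, 64]

/-- the kept classes -/
def kept : List (Mo × Mo) := keptPos.map (fun i => Pool.Agent.K8d.cls.getD i default)

/-- positions -/
def ia : List ℕ := [17, 55, 16, 13, 11, 14, 28, 41, 20, 27, 18, 45, 53, 29, 6, 47, 42, 52, 56, 15, 9, 10, 58, 12,
  48, 19, 7, 51, 30, 54, 40, 8, 49, 34, 50, 37, 32, 43, 2, 3, 22, 25, 35, 44, 21, 4, 5, 31, 23,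
  26, 24, 33, 46, 57, 0, 39, 1, 36, 38]

/-- positions -/
def ib : List ℕ := [54, 56, 38, 39, 45, 46, 14, 26, 31, 20, 21, 4, 23, 3, 5, 19, 2, 0, 10, 25, 8, 44, 40, 48, 50,
  41, 49, 9, 6, 13, 28, 47, 36, 51, 33, 42, 57, 35, 58, 55, 30, 7, 16, 37, 43, 11, 52, 15, 24,
  32, 34, 27, 17, 12, 29, 1, 18, 53, 22]

/-- **the same classes** -/
theorem same : sameC x8d.cls kept = true :=
  sameC_of_pos (a := ia) (b := ib) (by decide +kernel) (by decide +kernel)

theorem n_eq : x8d.n = 9 := rfl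

theorem r_eq : x8d.r = 7 := rfl

end Pool.Agent.MCX8d
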