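import Pool.Agent.Lib_helper40.MC.X8d.Dat

/-!
# exceptional curve d: the coordinates
-/

set_option autoImplicit false
set_option maxRecDepth 100000

namespace Pool.Agent.MCX8d

open Pool.Agent.KC72 Pool.Agent.MC

theorem x8d_q0 : blk (cQ x8d x8d_t) x8d.Q 40 0 = true := by decide +kernel

theorem x8d_q1 : blk (cQ x8d x8d_t) x8d.Q 40 1 = true := by decide +kernel

theorem x8d_q' : ∀ k < 2, blk (cQ x8d x8d_t) x8d.Q 40 k = true
  | 0, _ => x8d_q0
  | 1, _ => x8d_q1
  | k + 2, h => absurd h (by omega)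

end Pool.Agent.MCX8d
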